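import Pool.Agent.H85.TU.Targets

/-!
# Board tum_modules, row SNF
-/

set_option autoImplicit false

open Set Pool.Agent.H85.TU

namespace Pool.Agent.H60.TU

section

variable {C : Type} [MeasurableSpace C]

lemma qf_tr (S : Set (F3 C)) (χ : F3 C) : QuantifierFree (tr S χ) := by
  induction χ with
  | label i B hB w => exact trivial
  | equal a b => exact trivial
  | not φ ih => exact ih
  | conj φ ih => exact fun n => ih n
  | ex a φ _ => exact trivial
  | atLeast k a φ _ => exact trivial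

lemma qf_and2 {φ ψ : F3 C} (h1 : QuantifierFree φ) (h2 : QuantifierFree ψ) :
    QuantifierFree (and2 φ ψ) := by
  intro n
  change QuantifierFree (if n = 0 then φ else ψ)
  by_cases hn : n = 0
  · rw [if_pos hn]
    exact h1
  · rw [if_neg hn]
    exact h2

lemma ex_and2 {φ ψ : F3 C} (h1 : Existential φ) (h2 : Existential ψ) :
    Existential (and2 φ ψ) := by
  refine Existential.conj _ fun n => ?_
  by_cases hn : n = 0
  · rw [if_pos hn]
    exact h1
  · rw [if_neg hn]
    exact h2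

lemma ex_cnd (S : Set (F3 C)) (χ : F3 C) : Existential (cnd S χ) := by
  cases χ with
  | ex a φ =>
    refine ex_and2 (Existential.free _ ?_) (Existential.ex a _ (Existential.free _ ?_))
    · exact qf_and2 (qf_tr S φ) (qf_tr S (.ex a φ))
    · exact qf_and2 (qf_tr S (.ex a φ)) (qf_tr S φ)
  | label i B hB w => exact Existential.free _ trivial
  | equal a b => exact Existential.free _ trivial
  | not φ => exact Existential.free _ trivial
  | conj φ => exact Existential.free _ trivial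
  | atLeast k a φ => exact Existential.free _ trivial

lemma ex_nf (φ : F3 C) (θ : ℕ → F3 C) : Existential (nf φ θ) :=
  ex_and2 (Existential.free _ (qf_tr _ φ)) (Existential.conj _ fun n => ex_cnd _ (θ n))

lemma red_exp (S : Set (F3 C)) (x : Str bar (bD C) ℕ) : red3 (exp3 S x) = x := rfl

lemma red_iso {S : Set (F3 C)} {y z : Str bar (bD (LS S)) ℕ} (h : Iso y z) :
    Iso (red3 y) (red3 z) := by
  obtain ⟨g, hg⟩ := h
  exact ⟨g, fun i v => congrArg Prod.fst (hg i v)⟩

lemma red_meas (S : Set (F3 C)) :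
    Measurable (red3 : Str bar (bD (LS S)) ℕ → Str bar (bD C) ℕ) := by
  refine measurable_pi_iff.2 fun i => measurable_pi_iff.2 fun v => ?_
  have h1 : Measurable fun y : Str bar (bD (LS S)) ℕ => y i v :=
    (measurable_pi_apply v).comp (measurable_pi_apply i)
  exact measurable_fst.comp h1

end

/-- every sentence with three variables has a normal form -/
theorem pf_SNF (hSUB : T_SUB) (hTRU : T_TRU) (hEXP : T_EXP) (hEXM : T_EXM) : T_SNF := by
  intro C _ _ φ hφ
  obtain ⟨hc, hmem, -⟩ := hSUB C φ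
  obtain ⟨θ, hθ⟩ := hc.exists_eq_range ⟨φ, hmem⟩
  haveI : Countable (subs φ) := hc.to_subtype
  have h1 : ∀ y ∈ ModelsAll (nf φ θ), red3 y ∈ ModelsAll φ := by
    intro y hy v
    have h2 := (hTRU C φ θ hφ hθ.symm y hy).1 φ hmem v
    exact h2.1 (hy v 0)
  have h2 : ∀ y ∈ ModelsAll (nf φ θ), exp3 (subs φ) (red3 y) = y := fun y hy =>
    (hTRU C φ θ hφ hθ.symm y hy).2
  have h3 : ∀ x ∈ ModelsAll φ, exp3 (subs φ) x ∈ ModelsAll (nf φ θ) :=
    hEXP C φ θ hφ hθ.symm
  obtain ⟨h4, h5⟩ := hEXM C (subs φ)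
  refine ⟨LS (subs φ), inferInstance, inferInstance, nf φ θ, ex_nf φ θ, ⟨?_, ?_⟩, ⟨?_, ?_⟩⟩
  · rintro ⟨S, hS, hS2⟩
    refine ⟨red3 '' S, hS.image _, fun x hx => ?_⟩
    obtain ⟨y, hy, hxy⟩ := hS2 _ (h3 x hx)
    exact ⟨red3 y, ⟨y, hy, rfl⟩, red_iso hxy⟩
  · rintro ⟨S, hS, hS2⟩
    refine ⟨exp3 (subs φ) '' S, hS.image _, fun y hy => ?_⟩
    obtain ⟨z, hz, hyz⟩ := hS2 _ (h1 y hy)
    refine ⟨exp3 (subs φ) z, ⟨z, hz, rfl⟩, ?_⟩
    have h6 := h5 _ _ hyz
    rwa [h2 y hy] at h6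
  · rintro ⟨F, hF, hF2, hF3⟩
    refine ⟨fun u => red3 (F u), (red_meas _).comp hF, fun u => h1 _ (hF2 u), ?_⟩
    intro u v huv h
    have h6 := h5 _ _ h
    rw [h2 _ (hF2 u), h2 _ (hF2 v)] at h6
    exact hF3 u v huv h6
  · rintro ⟨F, hF, hF2, hF3⟩
    refine ⟨fun u => exp3 (subs φ) (F u), h4.comp hF, fun u => h3 _ (hF2 u), ?_⟩
    intro u v huv h
    exact hF3 u v huv (red_iso h)

end Pool.Agent.H60.TU
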