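import Pool.Agent.H85.TU.Targets2

/-!
# Board tum_modules, row E2E
-/

set_option autoImplicit false

open Set Pool.Agent.H85.TU

namespace Pool.Agent.H60.TU

lemma pre_ex (ρ : List Bool) (m : ℕ) : ∀ R : List ℕ → Prop,
    Pre (List.replicate m false ++ ρ) R ↔
      ∃ c : Fin m → ℕ, Pre ρ fun l => R (List.ofFn c ++ l) := by
  induction m with
  | zero =>
    intro R
    constructor
    · intro h
      exact ⟨Fin.elim0, by simpa using h⟩
    · rintro ⟨c, hc⟩
      simpa using hc
  | succ m ih =>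
    intro R
    rw [List.replicate_succ, List.cons_append]
    change (∃ a : ℕ, Pre (List.replicate m false ++ ρ) fun l => R (a :: l)) ↔ _
    constructor
    · rintro ⟨a, h⟩
      obtain ⟨c, hc⟩ := (ih _).1 h
      refine ⟨Fin.cons a c, ?_⟩
      simp only [List.ofFn_succ, Fin.cons_zero, Fin.cons_succ, List.cons_append]
      exact hc
    · rintro ⟨c, hc⟩
      refine ⟨c 0, (ih _).2 ⟨fun i => c i.succ, ?_⟩⟩
      simp only [List.ofFn_succ, List.cons_append] at hc
      exact hc

lemma pre_last (m : ℕ) (R : List ℕ → Prop) :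
    Pre (List.replicate m false) R ↔ ∃ c : Fin m → ℕ, R (List.ofFn c) := by
  have h := pre_ex [] m R
  rw [List.append_nil] at h
  rw [h]
  refine exists_congr fun c => ?_
  change R (List.ofFn c ++ []) ↔ _
  rw [List.append_nil]

variable {ι : Type} {ar : ι → ℕ} {D : ι → Type}

/-- the tuple -/
def WW (n : ℕ) {m l : ℕ} (c : Fin m → ℕ) (a b : ℕ) (d : Fin l → ℕ) (i : Fin n) : ℕ :=
  (List.ofFn c ++ a :: b :: List.ofFn d).getD i 0

lemma tp_pull (x : Str ar D ℕ) (p : ℕ → ℕ) (hp : Function.Injective p) {n : ℕ}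
    (w : Fin n → ℕ) : tp (pull x p) w = tp x (p ∘ w) := by
  unfold tp
  refine Prod.ext rfl ?_
  funext i j
  simp only [Function.comp_apply, hp.eq_iff]

lemma ww_map {m l : ℕ} (n : ℕ) (hn : n = m + (l + 2)) (p : ℕ → ℕ) (c : Fin m → ℕ) (a b : ℕ)
    (d : Fin l → ℕ) : p ∘ WW n c a b d = WW n (p ∘ c) (p a) (p b) (p ∘ d) := by
  funext i
  have hi := i.2
  unfold WW
  have h1 : (List.ofFn (p ∘ c) ++ p a :: p b :: List.ofFn (p ∘ d)) =
      (List.ofFn c ++ a :: b :: List.ofFn d).map p := by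
    simp [List.map_append]
  have h2 : i.1 < (List.ofFn c ++ a :: b :: List.ofFn d).length := by
    simp
    omega
  rw [h1]
  simp only [Function.comp_apply]
  rw [List.getD_eq_getElem _ _ h2, List.getD_eq_getElem _ _ (by rw [List.length_map]; exact h2),
    List.getElem_map]

lemma sent_eq (m l : ℕ) (B : Set (TY ar D
    (List.replicate m false ++ ([true, true] ++ List.replicate l false)).length)) :
    Sent (List.replicate m false ++ ([true, true] ++ List.replicate l false)) B =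
      {x | ∃ c : Fin m → ℕ, ∀ a b, ∃ d : Fin l → ℕ, tp x (WW _ c a b d) ∈ B} := by
  ext x
  unfold Sent
  rw [mem_ofPred_eq, mem_ofPred_eq, pre_ex]
  refine exists_congr fun c => ?_
  change (∀ a b : ℕ, Pre (List.replicate l false) _) ↔ _
  refine forall_congr' fun a => forall_congr' fun b => ?_
  rw [pre_last]
  rfl

section

variable [∀ i, MeasurableSpace (D i)]

lemma tp_meas {n : ℕ} (w : Fin n → ℕ) : Measurable fun x : Str ar D ℕ => tp x w := by
  refine Measurable.prodMk ?_ measurable_const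
  refine measurable_pi_iff.2 fun i => measurable_pi_iff.2 fun v => ?_
  exact (measurable_pi_apply (w ∘ v)).comp (measurable_pi_apply i)

lemma yy_meas (m l n : ℕ) (B : Set (TY ar D n)) (hB : MeasurableSet B) :
    MeasurableSet {p : Str ar D ℕ × (Fin m → ℕ) |
      ∀ a b, ∃ d : Fin l → ℕ, tp p.1 (WW n p.2 a b d) ∈ B} := by
  have h1 : ∀ (a b : ℕ) (d : Fin l → ℕ), Measurable fun p : Str ar D ℕ × (Fin m → ℕ) =>
      tp p.1 (WW n p.2 a b d) := fun a b d =>
    measurable_from_prod_countable_left fun q => tp_meas (WW n q a b d)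
  have h2 : {p : Str ar D ℕ × (Fin m → ℕ) |
      ∀ a b, ∃ d : Fin l → ℕ, tp p.1 (WW n p.2 a b d) ∈ B} =
      ⋂ a : ℕ, ⋂ b : ℕ, ⋃ d : Fin l → ℕ,
        (fun p : Str ar D ℕ × (Fin m → ℕ) => tp p.1 (WW n p.2 a b d)) ⁻¹' B := by
    ext p
    simp only [mem_ofPred_eq, mem_iInter, mem_iUnion, mem_preimage]
  rw [h2]
  exact MeasurableSet.iInter fun a => MeasurableSet.iInter fun b => MeasurableSet.iUnion fun d =>
    h1 a b d hB

end

/-- the dichotomy -/
theorem pf_E2E (hMRK : T_MRK) (hBOR : T_BOR) (hDUM : T_DUM) : T_E2E := by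
  intro ι _ ar D _ _ π B hπ hB
  obtain ⟨m, j, l, hj, hπe⟩ := hπ
  have hsub : π.Sublist (List.replicate m false ++ ([true, true] ++ List.replicate l false)) := by
    rw [hπe, List.append_assoc]
    refine (List.Sublist.refl _).append (List.Sublist.append ?_ (List.Sublist.refl _))
    have h1 : ([true, true] : List Bool) = List.replicate 2 true := rfl
    rw [h1]
    exact (List.replicate_sublist_replicate true).2 hj
  obtain ⟨B', hB', hS⟩ := hDUM ι ar D π _ hsub B hB
  rw [← hS, sent_eq]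
  have hlen : (List.replicate m false ++ ([true, true] ++ List.replicate l false)).length =
      m + (l + 2) := by
    simp
  have h1 := hMRK ι ar D m _ (hBOR _ _ (yy_meas m l _ B' hB'))
  have h2 : Covered m {p : Str ar D ℕ × (Fin m → ℕ) |
      ∀ a b, ∃ d : Fin l → ℕ, tp p.1 (WW _ p.2 a b d) ∈ B'} =
      {x | ∃ c : Fin m → ℕ, ∀ a b, ∃ d : Fin l → ℕ, tp x (WW _ c a b d) ∈ B'} := by
    ext x
    constructor
    · rintro ⟨c, hc⟩
      refine ⟨c, fun a b => ?_⟩
      obtain ⟨p, q, hp, hq, ⟨a', rfl⟩, ⟨b', rfl⟩, hY⟩ := hc a b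
      obtain ⟨d, hd⟩ := hY a' b'
      refine ⟨p ∘ d, ?_⟩
      rw [tp_pull x p hp, ww_map _ hlen, hq] at hd
      exact hd
    · rintro ⟨c, hc⟩
      refine ⟨c, fun a b => ⟨id, c, Function.injective_id, rfl, ⟨a, rfl⟩, ⟨b, rfl⟩, ?_⟩⟩
      exact hc
  rw [h2] at h1
  exact h1

end Pool.Agent.H60.TU
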