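import Pool.Agent.H85.TU.Targets

/-!
# Board tum_modules, row TWN
-/

set_option autoImplicit false

open Set Pool.Agent.H85.TU

namespace Pool.Agent.H60.TU

variable {ι : Type} {ar : ι → ℕ} {D : ι → Type}

lemma aut_refl (x : Str ar D ℕ) : Aut x (Equiv.refl ℕ) := fun _ _ => rfl

lemma aut_symm {x : Str ar D ℕ} {g : ℕ ≃ ℕ} (hg : Aut x g) : Aut x g.symm := by
  intro i v
  have h := hg i (g.symm ∘ v)
  have h1 : g ∘ (g.symm ∘ v) = v := by
    funext k
    exact g.apply_symm_apply _
  rw [h1] at h
  exact h.symm

lemma tup_two {k : ℕ} (v : Fin k → ℕ) (p q : Fin k) (h : ∀ j, j = p ∨ j = q) (σ : ℕ → ℕ) :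
    tup (fun j => if j = p then some false else some true) (fun _ => 0) (σ (v p)) (σ (v q)) =
      σ ∘ v := by
  funext j
  unfold tup
  by_cases hj : j = p
  · simp [hj]
  · have hq : j = q := (h j).resolve_left hj
    subst hq
    simp [hj]

/-- otherwise the orbits are contained in classes of twins -/
theorem pf_TWN : T_TWN := by
  intro ι ar D x h2 h1 g hg a
  by_cases hab : g a = a
  · rw [hab]
    intro i v
    rw [Equiv.swap_self]
    rfl
  have oab : Orb x a (g a) := ⟨g, hg, rfl⟩
  have oba : Orb x (g a) a := ⟨g.symm, aut_symm hg, g.symm_apply_apply a⟩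
  have fa : ¬ Fx x a := fun h => hab (h _ oab)
  have fb : ¬ Fx x (g a) := fun h => hab (h _ oba).symm
  obtain ⟨b, hb⟩ : ∃ b, b = g a := ⟨_, rfl⟩
  rw [← hb] at oab oba fb hab ⊢
  clear hb hg g
  have horb : ∀ n, Orb x n (Equiv.swap a b n) := by
    intro n
    by_cases hna : n = a
    · rw [hna, Equiv.swap_apply_left]
      exact oab
    · by_cases hnb : n = b
      · rw [hnb, Equiv.swap_apply_right]
        exact oba
      · rw [Equiv.swap_apply_of_ne_of_ne hna hnb]
        exact ⟨Equiv.refl ℕ, aut_refl x, rfl⟩
  have hfix : ∀ n, Fx x n → Equiv.swap a b n = n := fun n hn => hn _ (horb n)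
  intro i v
  by_cases h3 : 3 ≤ ar i
  · by_contra hne
    exact h1 ⟨⟨a, fa⟩, i, h3, _, _, hne⟩
  · by_cases hk : ∃ k, ¬ Fx x (v k)
    · obtain ⟨k, hk⟩ := hk
      by_cases hl : ∃ l, ¬ Fx x (v l) ∧ v l ≠ v k
      · obtain ⟨l, hl, hlk⟩ := hl
        have hkl : k ≠ l := by
          rintro rfl
          exact hlk rfl
        have hall : ∀ j : Fin (ar i), j = k ∨ j = l := by
          intro j
          have e1 := j.2
          have e2 := k.2
          have e3 := l.2
          have e4 : k.1 ≠ l.1 := fun h => hkl (Fin.ext h)
          by_contra hc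
          rw [not_or] at hc
          have e5 : j.1 ≠ k.1 := fun h => hc.1 (Fin.ext h)
          have e6 : j.1 ≠ l.1 := fun h => hc.2 (Fin.ext h)
          omega
        by_contra hne
        refine h2 ⟨v k, v l, Equiv.swap a b (v k), Equiv.swap a b (v l), hlk.symm,
          fun h => hlk ((Equiv.swap a b).injective h).symm, horb _, horb _, hk, hl, i,
          fun j => if j = k then some false else some true, fun _ => 0, ?_, ?_⟩
        · intro j hj
          by_cases hjk : j = k
          · simp [hjk] at hj
          · simp [hjk] at hj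
        · have e1 := tup_two v k l hall id
          have e2 := tup_two v k l hall (Equiv.swap a b)
          simp only [id_eq, Function.id_comp] at e1
          rw [e1, e2]
          exact fun h => hne h.symm
      · obtain ⟨g', hg', hg'k⟩ := horb (v k)
        have e1 : (Equiv.swap a b : ℕ ≃ ℕ) ∘ v = g' ∘ v := by
          funext j
          by_cases hj : Fx x (v j)
          · change Equiv.swap a b (v j) = g' (v j)
            rw [hfix _ hj, hj _ ⟨g', hg', rfl⟩]
          · have hjk : v j = v k := by
              by_contra hne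
              exact hl ⟨j, hj, hne⟩
            change Equiv.swap a b (v j) = g' (v j)
            rw [hjk, hg'k]
        rw [e1]
        exact hg' i v
    · have e1 : (Equiv.swap a b : ℕ ≃ ℕ) ∘ v = v := by
        funext j
        refine hfix _ ?_
        by_contra hc
        exact hk ⟨j, hc⟩
      rw [e1]

end Pool.Agent.H60.TU
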